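import Pool.Agent.Y690.PP.Cj

/-!
# Complex conjugation of the Hecke characters (project PP, job PP-CONJ)
-/

set_option autoImplicit false

open Complex IsDedekindDomain ComplexConjugate

namespace Pool.Agent.Y705.PP
open Pool.Agent.Y690.PP.Cj

/-- complex conjugation of the ring of Gaussian integers -/
theorem exists_cj {R : Subring ℂ} (hR : ∀ z : ℂ, z ∈ R ↔ ∃ x y : ℤ, z = x + y * I) :
    ∃ c : R ≃+* R, ∀ z : R, ((c z : R) : ℂ) = conj (z : ℂ) := by
  have hmem : ∀ z ∈ R, (starRingEnd ℂ) z ∈ R := by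
    intro z hz
    obtain ⟨x, y, rfl⟩ := (hR z).1 hz
    exact (hR _).2 ⟨x, -y, by simp⟩
  refine ⟨RingEquiv.ofRingHom ((starRingEnd ℂ).restrict R R hmem)
    ((starRingEnd ℂ).restrict R R hmem) ?_ ?_, ?_⟩
  · ext z; simp
  · ext z; simp
  · intro z; rfl

section

variable {R : Subring ℂ} (c : R ≃+* R)

theorem cc (hc : ∀ z : R, ((c z : R) : ℂ) = conj (z : ℂ)) (z : R) : c (c z) = z :=
  Subtype.ext (by rw [hc, hc, Complex.conj_conj])

theorem mapmap (hc : ∀ z : R, ((c z : R) : ℂ) = conj (z : ℂ)) (J : Ideal R) :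
    (J.map (c : R →+* R)).map (c : R →+* R) = J := by
  rw [Ideal.map_map]
  have : (c : R →+* R).comp (c : R →+* R) = RingHom.id R := by
    ext z
    simp [hc]
  rw [this, Ideal.map_id]

theorem mem_map (hc : ∀ z : R, ((c z : R) : ℂ) = conj (z : ℂ)) (J : Ideal R) (x : R) :
    x ∈ J.map (c : R →+* R) ↔ c x ∈ J := by
  constructor
  · intro h
    have h1 := Ideal.mem_map_of_mem (c : R →+* R) h
    rwa [mapmap c hc] at h1
  · intro h
    have h1 := Ideal.mem_map_of_mem (c : R →+* R) h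
    have h2 : (c : R →+* R) (c x) = x := cc c hc x
    rwa [h2] at h1

theorem map_span (α : R) : (Ideal.span {α}).map (c : R →+* R) = Ideal.span {c α} := by
  rw [Ideal.map_span, Set.image_singleton]
  rfl

theorem mem_span (hc : ∀ z : R, ((c z : R) : ℂ) = conj (z : ℂ)) (q x : R) :
    x ∈ Ideal.span {c q} ↔ c x ∈ Ideal.span {q} := by
  rw [← map_span, mem_map c hc]

theorem symbol_cj (hc : ∀ z : R, ((c z : R) : ℂ) = conj (z : ℂ)) (q α : R) :
    symbol (c q) α = symbol q (c α) := by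
  unfold symbol
  have h2 : (∃ β : R, β * β - α ∈ Ideal.span {c q}) ↔
      ∃ β : R, β * β - c α ∈ Ideal.span {q} := by
    constructor
    · rintro ⟨β, h⟩
      refine ⟨c β, ?_⟩
      have h3 := (mem_span c hc q _).1 h
      rwa [map_sub, map_mul] at h3
    · rintro ⟨β, h⟩
      refine ⟨c β, (mem_span c hc q _).2 ?_⟩
      rwa [map_sub, map_mul, cc c hc]
  by_cases h1 : α ∈ Ideal.span {c q}
  · rw [if_pos h1, if_pos ((mem_span c hc q α).1 h1)]
  · rw [if_neg h1, if_neg (fun h => h1 ((mem_span c hc q α).2 h))]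
    by_cases h3 : ∃ β : R, β * β - α ∈ Ideal.span {c q}
    · rw [if_pos h3, if_pos (h2.1 h3)]
    · rw [if_neg h3, if_neg (fun h => h3 (h2.2 h))]

theorem sign_cj (hc : ∀ z : R, ((c z : R) : ℂ) = conj (z : ℂ)) (f : R)
    (hf : (f : ℂ) = 2 + 2 * I) (α : R) : sign f 0 (c α) = sign f 1 α := by
  unfold sign
  have h2 : (∃ x y : ℤ, (if (0 : Fin 2) = 0 then Even x else Even y) ∧
        ((c α : R) : ℂ) = 1 + f * (x + y * I)) ↔
      ∃ x y : ℤ, (if (1 : Fin 2) = 0 then Even x else Even y) ∧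
        (α : ℂ) = 1 + f * (x + y * I) := by
    have h10 : ¬ ((1 : Fin 2) = 0) := by decide

    simp only [if_true, h10, if_false]
    rw [hc, hf]
    constructor
    · rintro ⟨x, y, h, h1⟩
      refine ⟨-y, -x, h.neg, ?_⟩
      have h3 := congrArg conj h1
      rw [Complex.conj_conj] at h3
      rw [h3]
      simp only [map_add, map_mul, map_one, map_ofNat, conj_I, map_intCast, Int.cast_neg]
      linear_combination (2 * (y : ℂ) + 2 * x) * I_sq
    · rintro ⟨x, y, h, h1⟩
      refine ⟨-y, -x, h.neg, ?_⟩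
      rw [h1]
      simp only [map_add, map_mul, map_one, map_ofNat, conj_I, map_intCast, Int.cast_neg]
      linear_combination (2 * (y : ℂ) + 2 * x) * I_sq
  by_cases h3 : ∃ x y : ℤ, (if (0 : Fin 2) = 0 then Even x else Even y) ∧
        ((c α : R) : ℂ) = 1 + f * (x + y * I)
  · rw [if_pos h3, if_pos (h2.1 h3)]
  · rw [if_neg h3, if_neg (fun h => h3 (h2.2 h))]

theorem cf_span (hR : ∀ z : ℂ, z ∈ R ↔ ∃ x y : ℤ, z = x + y * I)
    (hc : ∀ z : R, ((c z : R) : ℂ) = conj (z : ℂ)) (f : R)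
    (hf : (f : ℂ) = 2 + 2 * I) (x : R) (hx : x ∈ Ideal.span {f}) : c x ∈ Ideal.span {f} := by
  rw [Ideal.mem_span_singleton'] at hx ⊢
  obtain ⟨w, rfl⟩ := hx
  refine ⟨c w * ⟨-I, (hR _).2 ⟨0, -1, by simp⟩⟩, ?_⟩
  rw [map_mul, mul_assoc]
  congr 1
  apply Subtype.ext
  rw [hc]
  push_cast
  rw [hf]
  simp only [map_add, map_mul, map_ofNat, conj_I]
  linear_combination (-2 : ℂ) * I_sq

theorem norm_map (J : Ideal R) :
    Pool.Agent.Y690.PP.Cj.norm (J.map (c : R →+* R)) = Pool.Agent.Y690.PP.Cj.norm J := by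
  unfold Pool.Agent.Y690.PP.Cj.norm
  congr 1
  exact (Nat.card_congr (Ideal.quotientEquiv J (J.map (c : R →+* R)) c rfl).toEquiv).symm

/-- conjugation of primes -/
noncomputable def ePr (hc : ∀ z : R, ((c z : R) : ℂ) = conj (z : ℂ)) :
    HeightOneSpectrum R ≃ HeightOneSpectrum R where
  toFun P := ⟨P.asIdeal.map (c : R →+* R), Ideal.map_isPrime_of_equiv c, fun h => P.ne_bot (by
    have h1 := congrArg (fun J => Ideal.map (c : R →+* R) J) h
    simp only [mapmap c hc, Ideal.map_bot] at h1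
    exact h1)⟩
  invFun P := ⟨P.asIdeal.map (c : R →+* R), Ideal.map_isPrime_of_equiv c, fun h => P.ne_bot (by
    have h1 := congrArg (fun J => Ideal.map (c : R →+* R) J) h
    simp only [mapmap c hc, Ideal.map_bot] at h1
    exact h1)⟩
  left_inv P := HeightOneSpectrum.ext (mapmap c hc P.asIdeal)
  right_inv P := HeightOneSpectrum.ext (mapmap c hc P.asIdeal)

end

theorem t_CONJ : SCONJ := by
  intro R hR f hf S S' hS _ hN
  obtain ⟨c, hc⟩ := exists_cj hR
  obtain ⟨ψ, ⟨h1, h2, h3⟩, h4⟩ := hN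
  refine ⟨fun J => conj (ψ (J.map (c : R →+* R))), ⟨?_, ?_, ?_⟩, ?_⟩
  · intro J K
    simp only [Ideal.map_mul, h1, map_mul]
  · intro α hα
    have h5 : c α - 1 ∈ Ideal.span {f} := by
      have h6 := cf_span c hR hc f hf _ hα
      rwa [map_sub, map_one] at h6
    have h6 : ∏ p ∈ S', symbol p α = ∏ p ∈ S, symbol p (c α) := by
      classical
      have h7 : S' = S.image c := by
        ext p
        rw [hS p, Finset.mem_image]
        constructor
        · rintro ⟨q, hq, h⟩
          exact ⟨q, hq, Subtype.ext (by rw [hc, h])⟩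
        · rintro ⟨q, hq, rfl⟩
          exact ⟨q, hq, hc q⟩
      rw [h7, Finset.prod_image (fun _ _ _ _ h => c.injective h)]
      exact Finset.prod_congr rfl fun p _ => symbol_cj c hc p α
    show conj (ψ ((Ideal.span {α}).map (c : R →+* R))) = _
    rw [map_span, h2 _ h5, h6, ← sign_cj c hc f hf]
    rw [map_mul, map_mul, map_intCast, map_intCast, hc, Complex.conj_conj]
  · intro J hJ
    show conj (ψ (J.map (c : R →+* R))) = 0
    rw [h3, map_zero]
    rintro ⟨α, hα, h5⟩
    apply hJ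
    refine ⟨c α, ?_, ?_⟩
    · have h6 := cf_span c hR hc f hf _ hα
      rwa [map_sub, map_one] at h6
    · rw [← map_span, ← h5, mapmap c hc]
  · intro k a b hk hab
    obtain ⟨L, hL, hprod, hLk⟩ := h4 k a b hk hab
    refine ⟨fun s => conj (L (conj s)), ?_, ?_, ?_⟩
    · intro s
      have h5 := (hL (conj s)).conj_conj
      rw [Complex.conj_conj] at h5
      exact h5
    · intro s hs
      have h5 := hprod (conj s) (by rwa [Complex.conj_re])
      rw [← (ePr c hc).hasProd_iff] at h5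
      have h6 := h5.map (starRingEnd ℂ) continuous_conj
      refine h6.congr_fun ?_ 
      intro P
      show _ = conj _
      simp only [Function.comp]
      have h7 : ((ePr c hc) P).asIdeal = P.asIdeal.map (c : R →+* R) := rfl
      rw [h7, norm_map]
      have h0 : 0 ≤ Pool.Agent.Y690.PP.Cj.norm P.asIdeal := by
        unfold Pool.Agent.Y690.PP.Cj.norm; positivity
      generalize Pool.Agent.Y690.PP.Cj.norm P.asIdeal = u at h0 ⊢
      have h8 : conj ((u : ℂ) ^ (-conj s)) = (u : ℂ) ^ (-s) := by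
        have h9 : conj (u : ℂ) = (u : ℂ) := Complex.conj_ofReal _
        have h10 : (u : ℂ).arg ≠ Real.pi := by
          rw [Complex.arg_ofReal_of_nonneg h0]
          exact Real.pi_pos.ne
        have h11 := Complex.conj_cpow (u : ℂ) (-s) h10
        rw [h9, map_neg] at h11
        exact h11.symm
      simp only [map_inv₀, map_sub, map_one, map_mul, map_pow, h8, Complex.conj_conj]
    · show conj (L (conj (k : ℂ))) ≠ 0
      have h5 : conj (k : ℂ) = k := by simp
      rw [h5]
      exact (map_ne_zero (starRingEnd ℂ)).2 hLk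

end Pool.Agent.Y705.PP
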